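import Pool.Agent.H55.Jay.Ns

set_option autoImplicit false

/-!
# MP_97a702_gt, Q2: a perfectly normal convex compactum which is not separable is consistent with ZFC

The definitions are in `Pool/Agent/H55/Jay/JDefs.lean` (compact convex subsets of `R ^ I` inside a model), in
`Pool/Agent/H55/CSDefs.lean` (`ZFC`, `IsFun`, `Sub`) and in `Pool/Agent/H55/SCDefs.lean` (`ZF`, `IsPair`, `Rel`, `IsOmega`,
`IsReals`).

The model is a generic extension of a countable elementary submodel by the countable pieces of a system of weights
(`Frc`), so that the compact convex set of `Pool/Agent/H12/Jayne` attached to the generic system of weights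
(`Cov`, `Pn`, `Gn`) is compact and perfectly normal (`Op`, `Cv`, `Pf`) and not separable (`Ns`) in the model.
-/

namespace Pool.Agent.Results.MP_97a702_gt.ConsistentNonseparable

open Pool.Agent.H55.SC Pool.Agent.H55.CS Pool.Agent.H55.JY

/-- There is a countable wellfounded model `(M, E)` of `ZFC` with a set `I` and a set `K` of functions from `I` to the
real numbers such that in the model `K` is compact (for the topology of pointwise convergence), convex and perfectly
normal, but not separable. -/
theorem result : ∃ (M : Type 1) (E : M → M → Prop), Countable M ∧ WellFounded E ∧ ZFC E ∧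
    ∃ w, IsOmega E w ∧ ∃ (R I K : M) (_ : Field (El E R)) (_ : LinearOrder (El E R)),
      IsConvexCompactum E w R I K ∧ IsPerfectlyNormal E w R I K ∧ ¬ IsSeparable E w R I K :=
  Pool.Agent.H55.Jay.main_result

end Pool.Agent.Results.MP_97a702_gt.ConsistentNonseparable
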