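import Pool.Agent.H12.Jayne.Example
import Pool.Agent.H12.Jayne.MA

/-!
# Separability of perfectly normal convex compacta is independent of ZFC (MP_97a702_gt, Q2)

`MA(ℵ₁)` implies that every perfectly normal convex compactum is separable, and `◇` implies that
there is a perfectly normal convex compactum which is not separable.

The construction under `◇` is in `Pool/Agent/H12/Jayne`: `Tree` (a tree with finite levels),
`KSet` (the compact convex set attached to a family of weights on the tree indexed by the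
countable ordinals), `Inv` (the invariants), `Stage`, `Stage2`, `Stage3`, `Stage4`, `Rec` (the
transfinite recursion), `Catch`, `HL` (perfect normality), `NonSep` (non-separability), `Club`
(closed unbounded sets, guessing), `Example`; the part on Martin's axiom is in `MA`.
-/

open Cardinal Set TopologicalSpace Ordinal

namespace Pool.Agent.Results.MP_97a702_gt.SeparabilityIndependent

/-- Two elements of a preorder are compatible if they have a common lower bound. -/
def Compatible {P : Type} [Preorder P] (p q : P) : Prop := ∃ r, r ≤ p ∧ r ≤ q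

/-- The countable chain condition: every set of pairwise incompatible elements is countable. -/
def CCC (P : Type) [Preorder P] : Prop :=
  ∀ A : Set P, (∀ p ∈ A, ∀ q ∈ A, p ≠ q → ¬ Compatible p q) → A.Countable

/-- A subset of a poset is dense if every element has an extension (a smaller element) in it. -/
def IsDenseSet {P : Type} [Preorder P] (D : Set P) : Prop := ∀ p, ∃ q ∈ D, q ≤ p

/-- `MA(κ)`: for every nonempty ccc poset and every family of at most `κ` dense subsets
there is a filter meeting all of them. -/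
def MAFor (κ : Cardinal.{0}) : Prop :=
  ∀ (P : Type) [PartialOrder P] [Nonempty P], CCC P →
    ∀ 𝒟 : Set (Set P), #𝒟 ≤ κ → (∀ D ∈ 𝒟, IsDenseSet D) →
      ∃ G : Order.PFilter P, ∀ D ∈ 𝒟, ∃ p ∈ G, p ∈ D

/-- Closed unbounded subsets of `ω₁`. -/
def IsClubInOmegaOne (C : Set Ordinal.{0}) : Prop :=
  C ⊆ Iio ω₁ ∧ (∀ b < ω₁, ∃ c ∈ C, b < c) ∧
    ∀ a < ω₁, a ≠ 0 → (∀ b < a, ∃ c ∈ C, b < c ∧ c < a) → a ∈ C

/-- Jensen's principle `◇`: there are sets `A a ⊆ a` (`a < ω₁`) such that for every `X ⊆ ω₁` the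
set of all `a` with `X ∩ a = A a` is stationary, that is, meets every closed unbounded set. -/
def Diamond : Prop :=
  ∃ A : Ordinal.{0} → Set Ordinal.{0}, ∀ X ⊆ Iio (ω₁ : Ordinal.{0}),
    ∀ C, IsClubInOmegaOne C → ∃ a ∈ C, X ∩ Iio a = A a

/-- Every perfectly normal convex compactum is separable. -/
def PerfectlyNormalConvexCompactaSeparable : Prop :=
  ∀ (E : Type) [AddCommGroup E] [Module ℝ E] [TopologicalSpace E] [IsTopologicalAddGroup E]
    [ContinuousSMul ℝ E] [LocallyConvexSpace ℝ E] [T2Space E] (K : Set E),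
    IsCompact K → Convex ℝ K → PerfectlyNormalSpace ↥K → SeparableSpace ↥K

/-- the index set: the countable ordinals -/
abbrev W : Type := (ω₁ : Ordinal.{0}).ToType

lemma card_W : #W = ℵ₁ := by
  rw [Cardinal.mk_toType, ← Cardinal.ord_aleph, Cardinal.card_ord]

lemma countable_Iio (i : W) : (Iio i).Countable := by
  rw [← Cardinal.le_aleph0_iff_set_countable]
  have h : #(Iio i) < ℵ₁ := by
    have h1 := Ordinal.typein_lt_self i
    have h2 : #(Iio i) = (typein (α := W) (· < ·) i).card := rfl
    rw [h2, ← Cardinal.lt_ord, Cardinal.ord_aleph]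
    exact h1
  exact lt_aleph_one_iff.1 h

lemma bounded (S : Set W) (hS : S.Countable) : ∃ b, ∀ s ∈ S, s < b := by
  by_contra hcon
  push Not at hcon
  have h1 : (univ : Set W) ⊆ ⋃ s ∈ S, Iic s := by
    intro b _
    obtain ⟨s, hs, hsb⟩ := hcon b
    exact mem_biUnion hs hsb
  have h2 : (⋃ s ∈ S, Iic s).Countable := by
    refine hS.biUnion (fun s _ => ?_)
    have : Iic s = insert s (Iio s) := by
      ext t
      simp only [mem_Iic, mem_insert_iff, mem_Iio]
      exact le_iff_eq_or_lt
    rw [this]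
    exact (countable_Iio s).insert s
  have h3 : Countable W := Set.countable_univ_iff.1 (h2.mono h1)
  have h4 := Cardinal.mk_le_aleph0_iff.2 h3
  rw [card_W] at h4
  exact absurd h4 (not_le.2 aleph0_lt_aleph_one)

/-- the ordinal corresponding to an index -/
noncomputable def o (w : W) : Ordinal.{0} := ((Ordinal.ToType.mk (o := ω₁)).symm w).1

lemma o_lt (w : W) : o w < ω₁ := ((Ordinal.ToType.mk (o := ω₁)).symm w).2

lemma o_lt_o {v w : W} : o v < o w ↔ v < w :=
  (Ordinal.ToType.mk (o := ω₁)).symm.lt_iff_lt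

lemma exists_o {a : Ordinal.{0}} (ha : a < ω₁) : ∃ w, o w = a :=
  ⟨Ordinal.ToType.mk ⟨a, ha⟩, by simp [o]⟩

lemma o_inj {v w : W} (h : o v = o w) : v = w := by
  rcases lt_trichotomy v w with h1 | h1 | h1
  · exact absurd h (o_lt_o.2 h1).ne
  · exact h1
  · exact absurd h (o_lt_o.2 h1).ne'

lemma diamondW (hD : Diamond) : H12.Jayne.DiamondW W := by
  obtain ⟨A, hA⟩ := hD
  refine ⟨fun w => {v | o v ∈ A (o w)}, fun X C hC => ?_⟩
  obtain ⟨a, ⟨al, hal, rfl⟩, h2⟩ := hA (o '' X) (by rintro _ ⟨w, -, rfl⟩; exact o_lt w) (o '' C) (by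
    refine ⟨by rintro _ ⟨w, -, rfl⟩; exact o_lt w, ?_, ?_⟩
    · intro b hb
      obtain ⟨w, rfl⟩ := exists_o hb
      obtain ⟨c, hc, hwc⟩ := hC.1 w
      exact ⟨o c, ⟨c, hc, rfl⟩, o_lt_o.2 hwc⟩
    · intro a ha ha0 h
      obtain ⟨w, rfl⟩ := exists_o ha
      refine ⟨w, hC.2 w ?_ ?_, rfl⟩
      · obtain ⟨c, ⟨v, -, rfl⟩, -, h2⟩ := h 0 (pos_iff_ne_zero.2 ha0)
        exact ⟨v, o_lt_o.1 h2⟩
      · intro b hb
        obtain ⟨c, ⟨v, hv, rfl⟩, h1, h2⟩ := h (o b) (o_lt_o.2 hb)
        exact ⟨v, hv, o_lt_o.1 h1, o_lt_o.1 h2⟩)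
  refine ⟨al, hal, fun b hb => ?_⟩
  change o b ∈ A (o al) ↔ b ∈ X
  rw [← h2]
  constructor
  · rintro ⟨⟨x, hx, hxb⟩, -⟩
    rw [← o_inj hxb]; exact hx
  · intro hbX
    exact ⟨⟨b, hbX, rfl⟩, o_lt_o.2 hb⟩

/-- `MA(ℵ₁)` implies that every perfectly normal convex compactum is separable, and `◇` implies
that some perfectly normal convex compactum is not separable. -/
theorem result :
    (MAFor ℵ₁ → PerfectlyNormalConvexCompactaSeparable) ∧
      (Diamond → ¬ PerfectlyNormalConvexCompactaSeparable) := by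
  have : Nonempty W := Cardinal.mk_ne_zero_iff.1 (by
    rw [card_W]; exact (aleph0_pos.trans aleph0_lt_aleph_one).ne')
  constructor
  · intro hMA E _ _ _ _ _ _ _ K hK _ hPN
    have : CompactSpace ↥K := isCompact_iff_compactSpace.1 hK
    have : HereditarilyLindelofSpace ↥K := H12.Jayne.hereditarilyLindelof_of_perfectlyNormal
    exact H12.Jayne.separable_of_ma (κ := ℵ₁) hMA (I := W) card_W.le bounded countable_Iio
  · intro hD h
    let _ : OrderBot W := WellFoundedLT.toOrderBot W
    obtain ⟨K, h1, h2, h3, h4⟩ := H12.Jayne.exists_example (diamondW hD) bounded countable_Iio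
    exact h4 (h _ K h1 h2 h3)

end Pool.Agent.Results.MP_97a702_gt.SeparabilityIndependent
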